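import Pool.Agent.V5helper25.TG.Cov

/-!
# `Ω`-stable circle extensions with a constant number of periodic points in the periodic fibres

`V n = ℝⁿ`, `DiffM n N r = Diff^r(N)` with its `C^r` topology (`Pool/Agent/H718R2/G0.lean`),
`OmegaStable`, `Omega F = Ω(F)`: `Pool/Agent/TH80/OMS/Defs.lean`; `Per F`: the set of the periodic
points (`Pool/Agent/TH80/OMS/SymDefs.lean`).

In `Pool/Agent/N813/CX/Defs.lean`:
* `CircleExt n N F ψ`: `ψ` is a smooth free action of the circle `ℝ / ℤ` on `N` (a smooth flow with
  `ψ_t y = y` if and only if `t` is an integer), and `F` maps the orbits of `ψ` to orbits, preserving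
  the orientation: `F (ψ_t y) = ψ_(a(t)) (F y)`, with increasing `a`, which depends on `y`. The fibre
  maps are arbitrary otherwise (they need not commute with the action);
* `OrbitMap F ψ π f`: `π : N → B` is a continuous surjective map whose fibres are the orbits of `ψ`,
  and `f : B → B` is the map induced by `F`;
* `ClosingProp f`: for every `δ > 0` there is an `η > 0` such that if `dist (f^m x) x < η`, `m ≥ 1`,
  then there is a point `x'` with `f^m x' = x'` and `dist (f^i x') (f^i x) < δ` for `0 ≤ i ≤ m` (the
  conclusion of the Anosov closing lemma).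

`ExpansiveOn G A` (`Pool/Agent/V5helper25/TG/Main.lean`): `G` is expansive on `A`: for some
neighbourhood `W` of the diagonal, two bi-infinite orbits `x, y : ℤ → X` of `G` in `A` with
`(x_i, y_i) ∈ W` for all `i` are the same.

`IsCoveringMap` is Mathlib's notion of a covering map. `OmegaCovering`, `RotationCount`: below.
-/

set_option autoImplicit false

open scoped Manifold ContDiff Topology
open Filter Set Metric

universe u v

namespace Pool.Agent.Results.MP_4a0782_an.CircleExtCovering

open Pool.Agent.H718R2.G Pool.Agent.W564.SC Pool.Agent.TH80.OMS Pool.Agent.TH290.CL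
  Pool.Agent.N813.OF Pool.Agent.N813.CX Pool.Agent.V5helper25.TG

/-- There is a covering map `g : Ω(F) → Ω(f)` with exactly `K` sheets such that `g ∘ F = f ∘ g`. -/
def OmegaCovering {N : Type u} [TopologicalSpace N] {B : Type v} [TopologicalSpace B] (F : N → N)
    (f : B → B) (K : ℕ) : Prop :=
  ∃ g : Omega F → Omega f, IsCoveringMap g ∧ (∀ x y : Omega F, F x = y → (g y : B) = f (g x)) ∧
    ∀ y, {x | g x = y}.ncard = K

/-- For all small `s`, except countably many, the nonwandering set of `ψ_s ∘ F` meets each fibre over a
point of `Ω(f)` in exactly `K` points. -/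
def RotationCount {N : Type u} [TopologicalSpace N] {B : Type v} [TopologicalSpace B] (F : N → N)
    (ψ : ℝ → N → N) (π : N → B) (f : B → B) (K : ℕ) : Prop :=
  ∃ θ : ℝ, 0 < θ ∧ ∃ E : Set ℝ, E.Countable ∧ ∀ s, |s| < θ → s ∉ E → ∀ y ∈ Omega f,
    {x | x ∈ Omega (fun z => ψ s (F z)) ∧ π x = y}.ncard = K

/-- Let `N` be a closed manifold, `1 ≤ r ≤ ∞`, let `F ∈ Diff^r(N)` be `Ω`-stable, and suppose that `F`
permutes the orbits of a smooth free action `ψ` of the circle `ℝ / ℤ`, preserving their orientation.
Let `f : B → B` be the map of the space `B` of the orbits induced by `F`, and suppose that `f` is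
expansive on `Ω(f)` and has the closing property. Suppose that each fibre over a periodic point of `f`
contains exactly `K ≥ 1` periodic points of `F`. Then:
1. There is a covering map `g : Ω(F) → Ω(f)` with exactly `K` sheets such that `g ∘ F = f ∘ g`. So
   `F` restricted to `Ω(F)` is topologically a `K`-sheeted covering of `f` restricted to `Ω(f)`.
2. For all small `s`, except countably many, the nonwandering set of `ψ_s ∘ F` meets each fibre over a
   point of `Ω(f)` in exactly `K` points. -/
theorem result {n : ℕ} {N : Type u} [TopologicalSpace N] [T2Space N] [CompactSpace N]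
    [ChartedSpace (V n) N] [IsManifold (𝓡 n) ∞ N] (r : ℕ∞) (hr : 1 ≤ r) (F : DiffM n N r)
    (hF : OmegaStable n N r F) (ψ : ℝ → N → N) (h : CircleExt n N F ψ) (B : Type v)
    [MetricSpace B] (π : N → B) (f : B → B) (hπ : OrbitMap F ψ π f) (hf : ClosingProp f)
    (he : ExpansiveOn f (Omega f)) (K : ℕ) (hK : 0 < K)
    (hcount : ∀ y ∈ Per f, {v | v ∈ Per F ∧ π v = y}.ncard = K) :
    OmegaCovering F f K ∧ RotationCount F ψ π f K :=
  mainK hr F hF ψ h B π f hπ hf he K hK hcount

end Pool.Agent.Results.MP_4a0782_an.CircleExtCovering
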