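import Pool.Agent.V5helper25.EX.MainP

/-!
# `Ω`-stable circle extensions: the exponents of the periodic points

`V n = ℝⁿ`, `DiffM n N r = Diff^r(N)` with its `C^r` topology (`Pool/Agent/H718R2/G0.lean`),
`OmegaStable`: `Pool/Agent/TH80/OMS/Defs.lean`.

`CircleExt n N F ψ` (`Pool/Agent/N813/CX/Defs.lean`): `ψ` is a smooth free action of the circle `ℝ / ℤ`
on `N` (a smooth flow with `ψ_t y = y` if and only if `t` is an integer), and `F` maps the orbits of `ψ`
to orbits, preserving the orientation: `F (ψ_t y) = ψ_(a(t)) (F y)`, with increasing `a`, which depends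
on `y`. The fibre maps are arbitrary otherwise (they need not commute with the action).

`Rt F ψ s = ψ_s ∘ F` (`Pool/Agent/V5helper25/TK/Base.lean`).

In `Pool/Agent/V5helper25/EX/MainP.lean`:
* `FP F ψ v`: the fibre (orbit of `ψ`) of `v` is periodic: `F^m v = ψ_c v` for some `m ≥ 1` and `c`;
* `FibDer ψ G y lam`: `lam` is the derivative of `G` at `y` along the fibres;
* `MeanHyp F ψ θ v`: there is a positive function `E` on `(-θ, θ)` with integral at most `2` such that for almost
  every `s ∈ (-θ, θ)` the following holds: if `p` lies in the fibre of `v`, `k ≥ 1`,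
  `(ψ_s ∘ F)^k p = p`, and `lam` is the derivative of `(ψ_s ∘ F)^k` at `p` along the fibre, then
  `lam > 0` and `|log lam| ≥ k / E(s)`;
* `Weak F ψ v s c`: some periodic point of `ψ_s ∘ F` in the fibre of `v`, of period `k`, has
  `|log lam| < c k`;
* `MostHyp F ψ θ O`: for almost every `s ∈ (-θ, θ)` there is a number `C` such that for infinitely many
  `j`, for all `c > 0`, `Weak F ψ v s c` holds for at most `C c |O j|` of the points `v` of `O j`.
-/

set_option autoImplicit false

open scoped Manifold ContDiff Topology
open Filter Set Metric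

universe u v

namespace Pool.Agent.Results.MP_4a0782_an.CircleExtExponents

open Pool.Agent.H718R2.G Pool.Agent.W564.SC Pool.Agent.TH80.OMS Pool.Agent.TH290.CL
  Pool.Agent.N813.OF Pool.Agent.N813.CX Pool.Agent.V5helper25.EX

/-- Let `N` be a closed manifold, `1 ≤ r ≤ ∞`, let `F ∈ Diff^r(N)` be `Ω`-stable, and suppose that `F`
permutes the orbits of a smooth free action `ψ` of the circle `ℝ / ℤ`, preserving their orientation
(no hypothesis on the map of the space of the orbits). There is a `θ > 0` such that:
1. For every periodic fibre there is a positive function `E` on `(-θ, θ)` with integral at most `2` such that,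
   for almost every `s ∈ (-θ, θ)`, the fibre exponents `χ = (1/k) log lam` of all periodic points of
   `ψ_s ∘ F` in this fibre satisfy `|χ| ≥ 1 / E(s)`. In particular the set of the `s ∈ (-θ, θ)` for
   which `|χ| < c` for some periodic point of `ψ_s ∘ F` in the fibre has measure at most `2 c`, for all
   `c > 0`; the bound does not depend on the fibre and its period.
2. Let `O 0, O 1, …` be finite nonempty sets of periodic fibres (for instance all fibres of period `j`,
   given by representatives). For almost every `s ∈ (-θ, θ)` there is a number `C` such that for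
   infinitely many `j`, for all `c > 0`, all but at most `C c |O j|` of the fibres in `O j` contain only
   periodic points of `ψ_s ∘ F` with `|χ| ≥ c`. -/
theorem result {n : ℕ} {N : Type u} [TopologicalSpace N] [T2Space N] [CompactSpace N]
    [ChartedSpace (V n) N] [IsManifold (𝓡 n) ∞ N] (r : ℕ∞) (hr : 1 ≤ r) (F : DiffM n N r)
    (hF : OmegaStable n N r F) (ψ : ℝ → N → N) (h : CircleExt n N F ψ) :
    ∃ θ : ℝ, 0 < θ ∧ (∀ v, FP F ψ v → MeanHyp F ψ θ v) ∧
      ∀ O : ℕ → Finset N, (∀ j, (O j).Nonempty) → (∀ j, ∀ v ∈ O j, FP F ψ v) →
        MostHyp F ψ θ O :=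
  mainP' hr F hF ψ h

end Pool.Agent.Results.MP_4a0782_an.CircleExtExponents
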