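import Pool.Agent.V5helper25.EX.MainM

/-!
# `Ω`-stable circle extensions: the fibre exponents of the invariant measures

`V n = ℝⁿ`, `DiffM n N r = Diff^r(N)` with its `C^r` topology (`Pool/Agent/H718R2/G0.lean`),
`OmegaStable`, `Omega F = Ω(F)`: `Pool/Agent/TH80/OMS/Defs.lean`.

In `Pool/Agent/N813/CX/Defs.lean`:
* `CircleExt n N F ψ`: `ψ` is a smooth free action of the circle `ℝ / ℤ` on `N` (a smooth flow with
  `ψ_t y = y` if and only if `t` is an integer), and `F` maps the orbits of `ψ` to orbits, preserving
  the orientation: `F (ψ_t y) = ψ_(a(t)) (F y)`, with increasing `a`, which depends on `y`. The fibre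
  maps are arbitrary otherwise (they need not commute with the action);
* `OrbitMap F ψ π f`: `π : N → B` is a continuous surjective map whose fibres are the orbits of `ψ`,
  and `f : B → B` is the map induced by `F`;
* `ClosingProp f`: for every `δ > 0` there is an `η > 0` such that if `dist (f^m x) x < η`, `m ≥ 1`,
  then there is a point `x'` with `f^m x' = x'` and `dist (f^i x') (f^i x) < δ` for `0 ≤ i ≤ m` (the
  conclusion of the Anosov closing lemma).

`ExpansiveOn G A` (`Pool/Agent/V5helper25/TG/Main.lean`): `G` is expansive on `A`: for some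
neighbourhood `W` of the diagonal, two bi-infinite orbits `x, y : ℤ → X` of `G` in `A` with
`(x_i, y_i) ∈ W` for all `i` are the same.

`Rt F ψ s = ψ_s ∘ F` (`Pool/Agent/V5helper25/TK/Base.lean`).

`FibDer ψ G y lam` (`Pool/Agent/V5helper25/EX/MainP.lean`): `lam` is the derivative of `G` at `y` along
the fibres: `G (ψ_t y) = ψ_(b(t)) (G y)` with `b(0) = 0` and `b'(0) = lam`.

`WeakHyp G A` (`Pool/Agent/V5helper25/EX/Weak.lean`), where `A` is the derivative of `G` along the
fibres: `Ω(G)` is the union of two disjoint closed invariant sets `K₁` and `K₂`, and for each `ε > 0`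
there is a number `C` such that the derivative `A(x) A(G x) ⋯ A(G^(n-1) x)` of `G^n` along the fibres
is at most `C e^(ε n)` for `x ∈ K₁` and at least `C⁻¹ e^(-ε n)` for `x ∈ K₂`, for all `n`.

`FibHyp G φ μ` (`Pool/Agent/V5helper25/EX/MainM.lean`): at `μ`-almost every point `x` the averages
`(1 / n) (φ x + φ (G x) + ⋯ + φ (G^(n-1) x))` do not tend to `0`, and `∫ φ dμ ≠ 0` if `μ` is ergodic
for `G`. For `φ = log A`, where `A` is the derivative of `G` along the fibres, the averages are
`(1 / n) log ‖D G^n | fibre‖`; by Birkhoff's theorem they converge almost everywhere, so the first part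
says that the fibre exponent is not `0` almost everywhere.
-/

set_option autoImplicit false

open scoped Manifold ContDiff Topology
open MeasureTheory Filter Set Metric

universe u v

namespace Pool.Agent.Results.MP_4a0782_an.CircleExtMeasures

open Pool.Agent.H718R2.G Pool.Agent.W564.SC Pool.Agent.TH80.OMS Pool.Agent.TH290.CL
  Pool.Agent.N813.OF Pool.Agent.N813.CX Pool.Agent.V5helper25.TK Pool.Agent.V5helper25.TG
  Pool.Agent.V5helper25.EX

/-- Let `N` be a closed manifold, `1 ≤ r ≤ ∞`, let `F ∈ Diff^r(N)` be `Ω`-stable, and suppose that `F`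
permutes the orbits of a smooth free action `ψ` of the circle `ℝ / ℤ`, preserving their orientation.
Let `f : B → B` be the map of the space `B` of the orbits induced by `F`. Suppose that `f` has the
closing property and is expansive on `Ω(f)`. Then there are a continuous positive function `A` on `N`,
which is the derivative of all maps `ψ_s ∘ F` along the fibres, and a `θ > 0`, such that:
1. For all `s ∈ (-θ, θ)`, except countably many, `Ω(ψ_s ∘ F)` is the union of two disjoint closed
   invariant sets such that for each `ε > 0` there is a number `C` such that, for all `n`, the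
   derivative of `(ψ_s ∘ F)^n` along the fibres is at most `C e^(ε n)` on the first set and at least
   `C⁻¹ e^(-ε n)` on the second set. So the fibre exponents of all invariant measures on the first set
   are `≤ 0`, and on the second set `≥ 0`.
2. For each probability measure `ν` on `B` (invariant under `f` or not, ergodic or not), for almost
   every `s ∈ (-θ, θ)`, all probability measures `μ` which are invariant under `ψ_s ∘ F` and project to
   `ν` are hyperbolic along the fibres: at `μ`-almost every point the fibre exponent of `ψ_s ∘ F` is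
   not `0` (the averages of `log A` do not tend to `0`), and `∫ log A dμ ≠ 0` if `μ` is ergodic. The
   exceptional set of the `s` does not depend on `μ`. -/
theorem result {n : ℕ} {N : Type u} [TopologicalSpace N] [T2Space N] [CompactSpace N]
    [ChartedSpace (V n) N] [IsManifold (𝓡 n) ∞ N] [MeasurableSpace N] [BorelSpace N] (r : ℕ∞)
    (hr : 1 ≤ r) (F : DiffM n N r) (hF : OmegaStable n N r F) (ψ : ℝ → N → N)
    (h : CircleExt n N F ψ) (B : Type v) [MetricSpace B] [MeasurableSpace B] [BorelSpace B]
    (π : N → B) (f : B → B) (hπ : OrbitMap F ψ π f) (hf : ClosingProp f)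
    (he : ExpansiveOn f (Omega f)) :
    ∃ (A : N → ℝ) (θ : ℝ), Continuous A ∧ (∀ y, 0 < A y) ∧
      (∀ (s : ℝ) (y : N), FibDer ψ (Rt F ψ s) y (A y)) ∧ 0 < θ ∧
      (∃ E : Set ℝ, E.Countable ∧ ∀ s, |s| < θ → s ∉ E → WeakHyp (Rt F ψ s) A) ∧
      ∀ ν : Measure B, IsProbabilityMeasure ν → ∀ᵐ s : ℝ, |s| < θ → ∀ μ : Measure N,
        IsProbabilityMeasure μ → MeasurePreserving (Rt F ψ s) μ μ → μ.map π = ν →
          FibHyp (Rt F ψ s) (fun y => Real.log (A y)) μ :=
  mainM hr F hF ψ h B π f hπ hf he

end Pool.Agent.Results.MP_4a0782_an.CircleExtMeasures
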