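import Pool.Agent.V5helper25.TG.Main

/-!
# `Ω`-stable circle extensions: topological hyperbolicity of the nonwandering set

`V n = ℝⁿ`, `DiffM n N r = Diff^r(N)` with its `C^r` topology (`Pool/Agent/H718R2/G0.lean`),
`OmegaStable`, `Omega F = Ω(F)`: `Pool/Agent/TH80/OMS/Defs.lean`.

In `Pool/Agent/N813/CX/Defs.lean`:
* `CircleExt n N F ψ`: `ψ` is a smooth free action of the circle `ℝ / ℤ` on `N` (a smooth flow with
  `ψ_t y = y` if and only if `t` is an integer), and `F` maps the orbits of `ψ` to orbits, preserving
  the orientation: `F (ψ_t y) = ψ_(a(t)) (F y)`, with increasing `a`, which depends on `y`. The fibre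
  maps are arbitrary otherwise (they need not commute with the action);
* `OrbitMap F ψ π f`: `π : N → B` is a continuous surjective map whose fibres are the orbits of `ψ`,
  and `f : B → B` is the map induced by `F`;
* `ClosingProp f`: for every `δ > 0` there is an `η > 0` such that if `dist (f^m x) x < η`, `m ≥ 1`,
  then there is a point `x'` with `f^m x' = x'` and `dist (f^i x') (f^i x) < δ` for `0 ≤ i ≤ m` (the
  conclusion of the Anosov closing lemma).

In `Pool/Agent/V5helper25/TG/Main.lean`:
* `ExpansiveOn G A`: `G` is expansive on `A`: for some neighbourhood `W` of the diagonal, two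
  bi-infinite orbits `x, y : ℤ → X` of `G` in `A` with `(x_i, y_i) ∈ W` for all `i` are the same;
* `ShadowingOn G A`: `G` has the shadowing property on `A` (for bi-infinite pseudo-orbits in `A` and
  orbits in `A`): for each neighbourhood `W` of the diagonal there is a neighbourhood `V` of the
  diagonal such that each sequence `x : ℤ → X` in `A` with `(G x_i, x_(i+1)) ∈ V` for all `i` is
  `W`-shadowed by an orbit of `G` in `A`;
* `BoundedExtension F f`: there are a continuous surjective map `g : Ω(F) → Ω(f)` with
  `g ∘ F = f ∘ g` and a number `C` such that the fibres of `g` have at most `C` points.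
-/

set_option autoImplicit false

open scoped Manifold ContDiff Topology
open Filter Set Metric

universe u v

namespace Pool.Agent.Results.MP_4a0782_an.CircleExtTopHyp

open Pool.Agent.H718R2.G Pool.Agent.W564.SC Pool.Agent.TH80.OMS Pool.Agent.TH290.CL
  Pool.Agent.N813.OF Pool.Agent.N813.CX Pool.Agent.V5helper25.TG

/-- Let `N` be a closed manifold, `1 ≤ r ≤ ∞`, let `F ∈ Diff^r(N)` be `Ω`-stable, and suppose that `F`
permutes the orbits of a smooth free action `ψ` of the circle `ℝ / ℤ`, preserving their orientation.
Let `f : B → B` be the map of the space `B` of the orbits induced by `F`. Suppose that `f` has the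
closing property and that `f` restricted to `Ω(f)` is topologically hyperbolic, that is, expansive with
the shadowing property. (These hypotheses are known to hold if `f` is an Anosov diffeomorphism or, more
generally, satisfies Axiom A and the no cycles condition; this is not part of the theorem.) Then `F`
restricted to `Ω(F)` is topologically hyperbolic:
1. `F` is expansive on `Ω(F)`.
2. `F` has the shadowing property on `Ω(F)`.
3. `F` on `Ω(F)` is a bounded-to-one extension of `f` on `Ω(f)`: there is a continuous surjective map
   `g : Ω(F) → Ω(f)` with `g ∘ F = f ∘ g` whose fibres have at most `C` points. -/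
theorem result {n : ℕ} {N : Type u} [TopologicalSpace N] [T2Space N] [CompactSpace N]
    [ChartedSpace (V n) N] [IsManifold (𝓡 n) ∞ N] (r : ℕ∞) (hr : 1 ≤ r) (F : DiffM n N r)
    (hF : OmegaStable n N r F) (ψ : ℝ → N → N) (h : CircleExt n N F ψ) (B : Type v)
    [MetricSpace B] (π : N → B) (f : B → B) (hπ : OrbitMap F ψ π f) (hf : ClosingProp f)
    (he : ExpansiveOn f (Omega f)) (hs : ShadowingOn f (Omega f)) :
    ExpansiveOn F (Omega F) ∧ ShadowingOn F (Omega F) ∧ BoundedExtension F f :=
  main hr F hF ψ h B π f hπ hf he hs

end Pool.Agent.Results.MP_4a0782_an.CircleExtTopHyp
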